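import Pool.Agent.K7.H41.OP.Stm2

set_option autoImplicit false

/-!
# Project OP, job DCC: a group with the minimal condition on centralizers has only finitely many
central factors
-/

namespace Pool.Agent.K7.H78.OP

open Pool.Agent.K7.H41.OP
open scoped commutatorElement

variable {B : Type} [Group B]

theorem split_of_comm {E F : Subgroup B} (hc : ∀ e ∈ E, ∀ f ∈ F, e * f = f * e) (x : B)
    (hx : x ∈ E ⊔ F) : ∃ e ∈ E, ∃ f ∈ F, x = e * f := by
  rw [Subgroup.sup_eq_closure] at hx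
  induction hx using Subgroup.closure_induction with
  | mem x hx =>
    rcases hx with hx | hx
    · exact ⟨x, hx, 1, F.one_mem, by simp⟩
    · exact ⟨1, E.one_mem, x, hx, by simp⟩
  | one => exact ⟨1, E.one_mem, 1, F.one_mem, by simp⟩
  | mul x y _ _ hx hy =>
    obtain ⟨e, he, f, hf, rfl⟩ := hx
    obtain ⟨e', he', f', hf', rfl⟩ := hy
    refine ⟨e * e', E.mul_mem he he', f * f', F.mul_mem hf hf', ?_⟩
    have h := hc e' he' f hf
    calc e * f * (e' * f') = e * (f * e') * f' := by group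
      _ = e * (e' * f) * f' := by rw [h]
      _ = _ := by group
  | inv x _ hx =>
    obtain ⟨e, he, f, hf, rfl⟩ := hx
    refine ⟨e⁻¹, E.inv_mem he, f⁻¹, F.inv_mem hf, ?_⟩
    rw [mul_inv_rev]
    exact (hc e⁻¹ (E.inv_mem he) f⁻¹ (F.inv_mem hf)).symm

/-- a central decomposition -/
structure Dec (E F : Subgroup B) : Prop where
  zE : Subgroup.center B ≤ E
  zF : Subgroup.center B ≤ F
  top : E ⊔ F = ⊤
  comm : ∀ e ∈ E, ∀ f ∈ F, e * f = f * e
  ind : ⁅E, E⁆ ⊓ ⁅F, F⁆ = ⊥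

theorem Dec.symm {E F : Subgroup B} (h : Dec E F) : Dec F E :=
  ⟨h.zF, h.zE, by rw [sup_comm]; exact h.top, fun f hf e he => (h.comm e he f hf).symm,
    by rw [inf_comm]; exact h.ind⟩

theorem Dec.split {E F : Subgroup B} (h : Dec E F) (x : B) : ∃ e ∈ E, ∃ f ∈ F, x = e * f :=
  split_of_comm h.comm x (by rw [h.top]; trivial)

theorem Dec.mem {E F : Subgroup B} (h : Dec E F) {x : B} (hx : ∀ f ∈ F, x * f = f * x) :
    x ∈ E := by
  obtain ⟨e, he, f, hf, rfl⟩ := h.split x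
  refine E.mul_mem he (h.zE ?_)
  rw [Subgroup.mem_center_iff]
  intro y
  obtain ⟨e', he', f', hf', rfl⟩ := h.split y
  have h1 : f * f' = f' * f := by
    have h2 := hx f' hf'
    have h3 := h.comm e he f' hf'
    have h4 : e * (f * f') = e * (f' * f) := by
      calc e * (f * f') = e * f * f' := by group
        _ = f' * (e * f) := h2
        _ = (f' * e) * f := by group
        _ = (e * f') * f := by rw [h3]
        _ = _ := by group
    exact mul_left_cancel h4
  have h5 := h.comm e' he' f hf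
  calc e' * f' * f = e' * (f' * f) := by group
    _ = e' * (f * f') := by rw [h1]
    _ = (e' * f) * f' := by group
    _ = (f * e') * f' := by rw [h5]
    _ = _ := by group

theorem Dec.cent {E F : Subgroup B} (h : Dec E F) : E = Subgroup.centralizer (F : Set B) := by
  ext x
  rw [Subgroup.mem_centralizer_iff]
  constructor
  · intro hx f hf
    exact (h.comm x hx f hf).symm
  · intro hx
    exact h.mem fun f hf => (hx f hf).symm

/-- the components of an element of a central factor lie in the factor -/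
theorem Dec.part {E F E1 F1 : Subgroup B} (h : Dec E F) (h1 : Dec E1 F1) {e f : B} (he : e ∈ E)
    (hf : f ∈ F) (hef : e * f ∈ F1) : e ∈ F1 ∧ f ∈ F1 := by
  have key : f ∈ F1 := by
    refine h1.symm.mem fun x hx => ?_
    obtain ⟨e2, he2, f2, hf2, rfl⟩ := h.split x
    have h2 : (e2 * f2) * (e * f) = (e * f) * (e2 * f2) := h1.comm _ hx _ hef
    have c1 := h.comm e he f2 hf2
    have c2 := h.comm e2 he2 f hf
    have h3 : (e2 * e)⁻¹ * (e * e2) = f2 * f * (f * f2)⁻¹ := by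
      have h4 : (e * e2) * (f * f2) = (e2 * e) * (f2 * f) := by
        calc (e * e2) * (f * f2) = e * (e2 * f) * f2 := by group
          _ = e * (f * e2) * f2 := by rw [c2]
          _ = (e * f) * (e2 * f2) := by group
          _ = (e2 * f2) * (e * f) := h2.symm
          _ = e2 * (f2 * e) * f := by group
          _ = e2 * (e * f2) * f := by rw [c1]
          _ = _ := by group
      calc (e2 * e)⁻¹ * (e * e2) = (e2 * e)⁻¹ * ((e * e2) * (f * f2)) * (f * f2)⁻¹ := by group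
        _ = (e2 * e)⁻¹ * ((e2 * e) * (f2 * f)) * (f * f2)⁻¹ := by rw [h4]
        _ = _ := by group
    have h5 : f2 * f * (f * f2)⁻¹ = 1 := by
      have hE : (e2 * e)⁻¹ * (e * e2) ∈ ⁅E, E⁆ := by
        have h6 : (e2 * e)⁻¹ * (e * e2) = ⁅e⁻¹, e2⁻¹⁆ := by
          rw [commutatorElement_def]; group
        rw [h6]
        exact Subgroup.commutator_mem_commutator (E.inv_mem he) (E.inv_mem he2)
      have hF : f2 * f * (f * f2)⁻¹ ∈ ⁅F, F⁆ := by
        have h6 : f2 * f * (f * f2)⁻¹ = ⁅f2, f⁆ := by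
          rw [commutatorElement_def]; group
        rw [h6]
        exact Subgroup.commutator_mem_commutator hf2 hf
      have h7 : f2 * f * (f * f2)⁻¹ ∈ ⁅E, E⁆ ⊓ ⁅F, F⁆ := ⟨h3 ▸ hE, hF⟩
      rw [h.ind] at h7
      exact Subgroup.mem_bot.1 h7
    have h8 : f2 * f = f * f2 := by
      rwa [mul_inv_eq_one] at h5
    calc f * (e2 * f2) = (f * e2) * f2 := by group
      _ = (e2 * f) * f2 := by rw [c2]
      _ = e2 * (f * f2) := by group
      _ = e2 * (f2 * f) := by rw [h8]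
      _ = _ := by group
  refine ⟨?_, key⟩
  have h9 := F1.mul_mem hef (F1.inv_mem key)
  simpa using h9

theorem comm_le (E : Subgroup B) : ⁅E, E⁆ ≤ E := by
  rw [Subgroup.commutator_le]
  intro x hx y hy
  rw [commutatorElement_def]
  exact E.mul_mem (E.mul_mem (E.mul_mem hx hy) (E.inv_mem hx)) (E.inv_mem hy)

/-- the commutator subgroup of a central product -/
theorem comm_sup {E G : Subgroup B} (hc : ∀ e ∈ E, ∀ f ∈ G, e * f = f * e) :
    ⁅E ⊔ G, E ⊔ G⁆ ≤ ⁅E, E⁆ ⊔ ⁅G, G⁆ := by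
  rw [Subgroup.commutator_le]
  intro x hx y hy
  obtain ⟨e, he, g, hg, rfl⟩ := split_of_comm hc x hx
  obtain ⟨e', he', g', hg', rfl⟩ := split_of_comm hc y hy
  have c1 : g * e' = e' * g := (hc e' he' g hg).symm
  have c2 : g' * e⁻¹ = e⁻¹ * g' := (hc e⁻¹ (E.inv_mem he) g' hg').symm
  have c3 : g * g' * g⁻¹ * e⁻¹ = e⁻¹ * (g * g' * g⁻¹) :=
    (hc e⁻¹ (E.inv_mem he) _ (G.mul_mem (G.mul_mem hg hg') (G.inv_mem hg))).symm
  have c4 : (g * g' * g⁻¹ * g'⁻¹) * e'⁻¹ = e'⁻¹ * (g * g' * g⁻¹ * g'⁻¹) :=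
    (hc e'⁻¹ (E.inv_mem he') _ (G.mul_mem (G.mul_mem (G.mul_mem hg hg') (G.inv_mem hg))
      (G.inv_mem hg'))).symm
  have h : ⁅e * g, e' * g'⁆ = ⁅e, e'⁆ * ⁅g, g'⁆ := by
    simp only [commutatorElement_def]
    calc e * g * (e' * g') * (e * g)⁻¹ * (e' * g')⁻¹
        = e * (g * e') * g' * g⁻¹ * e⁻¹ * g'⁻¹ * e'⁻¹ := by group
      _ = e * (e' * g) * g' * g⁻¹ * e⁻¹ * g'⁻¹ * e'⁻¹ := by rw [c1]
      _ = e * e' * (g * g' * g⁻¹ * e⁻¹) * g'⁻¹ * e'⁻¹ := by group
      _ = e * e' * (e⁻¹ * (g * g' * g⁻¹)) * g'⁻¹ * e'⁻¹ := by rw [c3]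
      _ = e * e' * e⁻¹ * ((g * g' * g⁻¹ * g'⁻¹) * e'⁻¹) := by group
      _ = e * e' * e⁻¹ * (e'⁻¹ * (g * g' * g⁻¹ * g'⁻¹)) := by rw [c4]
      _ = _ := by group
  rw [h]
  exact Subgroup.mul_mem _
    (Subgroup.mem_sup_left (Subgroup.commutator_mem_commutator he he'))
    (Subgroup.mem_sup_right (Subgroup.commutator_mem_commutator hg hg'))

/-- the meet of two central factors is a central factor -/
theorem Dec.meet {E F E1 F1 : Subgroup B} (h : Dec E F) (h1 : Dec E1 F1) :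
    Dec (E ⊔ (F ⊓ E1)) (F ⊓ F1) := by
  have hc : ∀ e ∈ E, ∀ g ∈ F ⊓ E1, e * g = g * e := fun e he g hg => h.comm e he g hg.1
  refine ⟨h.zE.trans le_sup_left, le_inf h.zF h1.zF, ?_, ?_, ?_⟩
  · rw [eq_top_iff]
    intro x _
    obtain ⟨e, he, f, hf, rfl⟩ := h.split x
    obtain ⟨e1, he1, f1, hf1, rfl⟩ := h1.split f
    have h2 := h1.part h he1 hf1 hf
    have h3 : e * (e1 * f1) = (e * e1) * f1 := by group
    rw [h3]
    exact Subgroup.mul_mem _ (Subgroup.mem_sup_left (Subgroup.mul_mem _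
      (Subgroup.mem_sup_left he) (Subgroup.mem_sup_right ⟨h2.1, he1⟩)))
      (Subgroup.mem_sup_right ⟨h2.2, hf1⟩)
  · intro x hx f hf
    obtain ⟨e, he, g, hg, rfl⟩ := split_of_comm hc x hx
    have c1 := h.comm e he f hf.1
    have c2 := h1.comm g hg.2 f hf.2
    calc e * g * f = e * (g * f) := by group
      _ = e * (f * g) := by rw [c2]
      _ = (e * f) * g := by group
      _ = (f * e) * g := by rw [c1]
      _ = _ := by group
  · rw [eq_bot_iff]
    intro c hcc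
    have h2 := comm_sup hc hcc.1
    obtain ⟨c1, hc1, c2, hc2, h3⟩ := split_of_comm
      (fun x hx y hy => hc x (comm_le E hx) y (comm_le _ hy)) c h2
    have hcF : c ∈ ⁅F, F⁆ := Subgroup.commutator_mono inf_le_left inf_le_left hcc.2
    have hcF1 : c ∈ ⁅F1, F1⁆ := Subgroup.commutator_mono inf_le_right inf_le_right hcc.2
    have hc2F : c2 ∈ ⁅F, F⁆ := Subgroup.commutator_mono inf_le_left inf_le_left hc2
    have hc2E : c2 ∈ ⁅E1, E1⁆ := Subgroup.commutator_mono inf_le_right inf_le_right hc2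
    have h4 : c1 = c * c2⁻¹ := by rw [h3]; group
    have h5 : c1 ∈ ⁅E, E⁆ ⊓ ⁅F, F⁆ :=
      ⟨hc1, by rw [h4]; exact Subgroup.mul_mem _ hcF (Subgroup.inv_mem _ hc2F)⟩
    rw [h.ind] at h5
    have h6 : c = c2 := by rw [h3, Subgroup.mem_bot.1 h5, one_mul]
    have h7 : c ∈ ⁅E1, E1⁆ ⊓ ⁅F1, F1⁆ := ⟨h6 ▸ hc2E, hcF1⟩
    rw [h1.ind] at h7
    exact h7

theorem cfac_iff (F : Subgroup B) : CFac B F ↔ ∃ E, Dec E F := by
  constructor
  · rintro ⟨hF, E, hE, h1, h2, h3⟩
    exact ⟨E, hE, hF, h1, h2, h3⟩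
  · rintro ⟨E, h⟩
    exact ⟨h.zF, E, h.zE, h.top, h.comm, h.ind⟩

theorem cfac_meet {F F1 : Subgroup B} (h : CFac B F) (h1 : CFac B F1) : CFac B (F ⊓ F1) := by
  obtain ⟨E, h⟩ := (cfac_iff F).1 h
  obtain ⟨E1, h1⟩ := (cfac_iff F1).1 h1
  exact (cfac_iff _).2 ⟨_, h.meet h1⟩

/-- the central factors below `F` -/
def Below (F : Subgroup B) : Set (Subgroup B) := {X | CFac B X ∧ X ≤ F}

theorem step {F : Subgroup B} (hF : CFac B F) (hi : (Below F).Infinite) :
    ∃ F', CFac B F' ∧ (Below F').Infinite ∧ F' < F := by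
  have h0 : ∃ F' ∈ Below F, F' ∉ ({F, Subgroup.center B} : Set (Subgroup B)) :=
    hi.exists_notMem_finite (Set.toFinite _)
  obtain ⟨F', ⟨hF', hle⟩, hne⟩ := h0
  simp only [Set.mem_insert_iff, Set.mem_singleton_iff, not_or] at hne
  obtain ⟨E', d'⟩ := (cfac_iff F').1 hF'
  obtain ⟨E, d⟩ := (cfac_iff F).1 hF
  have hE' : CFac B E' := (cfac_iff E').2 ⟨F', d'.symm⟩
  have hlt : F' < F := lt_of_le_of_ne hle hne.1
  have hF'' : CFac B (F ⊓ E') := cfac_meet hF hE'
  have hlt2 : F ⊓ E' < F := by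
    refine lt_of_le_of_ne inf_le_left fun h => hne.2 ?_
    refine le_antisymm (fun x hx => ?_) d'.zF
    rw [Subgroup.mem_center_iff]
    intro y
    obtain ⟨e, he, f, hf, rfl⟩ := d.split y
    have hf' : f ∈ E' := by
      rw [← h] at hf
      exact hf.2
    have c1 := d.comm e he x (hle hx)
    have c2 := d'.comm f hf' x hx
    calc e * f * x = e * (f * x) := by group
      _ = e * (x * f) := by rw [c2]
      _ = (e * x) * f := by group
      _ = (x * e) * f := by rw [c1]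
      _ = _ := by group
  by_contra hno
  have h1 : (Below F').Finite := by
    by_contra h
    exact hno ⟨F', hF', h, hlt⟩
  have h2 : (Below (F ⊓ E')).Finite := by
    by_contra h
    exact hno ⟨F ⊓ E', hF'', h, hlt2⟩
  apply hi
  refine Set.Finite.of_finite_image (f := fun X => (X ⊓ F', X ⊓ (F ⊓ E')))
    ((h1.prod h2).subset ?_) ?_
  · rintro _ ⟨X, hX, rfl⟩
    exact ⟨⟨cfac_meet hX.1 hF', inf_le_right⟩, ⟨cfac_meet hX.1 hF'', inf_le_right⟩⟩
  · have key : ∀ X ∈ Below F, X = (X ⊓ F') ⊔ (X ⊓ (F ⊓ E')) := by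
      intro X hX
      obtain ⟨Y, dX⟩ := (cfac_iff X).1 hX.1
      refine le_antisymm (fun x hx => ?_) (sup_le inf_le_left inf_le_left)
      obtain ⟨e, he, f, hf, rfl⟩ := d'.split x
      have h3 := d'.part dX he hf hx
      exact Subgroup.mul_mem _ (Subgroup.mem_sup_right ⟨h3.1, hX.2 h3.1, he⟩)
        (Subgroup.mem_sup_left ⟨h3.2, hf⟩)
    intro X hX Y hY hXY
    have h4 : X ⊓ F' = Y ⊓ F' := congrArg Prod.fst hXY
    have h5 : X ⊓ (F ⊓ E') = Y ⊓ (F ⊓ E') := congrArg Prod.snd hXY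
    rw [key X hX, key Y hY, h4, h5]

theorem dcc : StDcc := by
  intro B _ hM
  by_contra hinf
  have htop : CFac B (⊤ : Subgroup B) := by
    refine (cfac_iff _).2 ⟨Subgroup.center B, le_refl _, le_top, sup_top_eq _, ?_, ?_⟩
    · intro e he f _
      exact (Subgroup.mem_center_iff.1 he f).symm
    · rw [eq_bot_iff]
      intro c hc
      have h1 : ⁅Subgroup.center B, Subgroup.center B⁆ ≤ (⊥ : Subgroup B) := by
        rw [Subgroup.commutator_le]
        intro x hx y _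
        rw [Subgroup.mem_bot, commutatorElement_def]
        have h2 := Subgroup.mem_center_iff.1 hx y
        rw [← h2]
        group
      exact h1 hc.1
  have h0 : (Below (⊤ : Subgroup B)).Infinite := by
    intro hf
    exact hinf (hf.subset fun F hF => ⟨hF, le_top⟩)
  let T := {F : Subgroup B // CFac B F ∧ (Below F).Infinite}
  have hstep : ∀ t : T, ∃ t' : T, t'.1 < t.1 := by
    rintro ⟨F, hF, hi⟩
    obtain ⟨F', h1, h2, h3⟩ := step hF hi
    exact ⟨⟨F', h1, h2⟩, h3⟩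
  choose s hs using hstep
  let g : ℕ → T := fun n => Nat.rec ⟨⊤, htop, h0⟩ (fun _ t => s t) n
  refine hM ⟨fun n => (g n).1, fun n => ?_, strictAnti_nat_of_succ_lt fun n => hs (g n)⟩
  obtain ⟨E, d⟩ := (cfac_iff _).1 (g n).2.1
  exact ⟨(E : Set B), d.symm.cent⟩

end Pool.Agent.K7.H78.OP
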